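import Pool.Agent.helper44.EX.Spec

/-!
# Project ex, row ITR: invariance under the iterates
-/

set_option autoImplicit false

open Complex Metric Set Filter Topology MeasureTheory Pool.Agent.helper98.ILF

noncomputable section

namespace EX

theorem ITR_diff (n : ℕ) (c : ℂ) : Differentiable ℂ (ff n c) := by
  unfold ff
  fun_prop

theorem ITR_deriv (n : ℕ) (c z : ℂ) : deriv (ff n c) z = n * z ^ (n - 1) := by
  have h : HasDerivAt (ff n c) (n * z ^ (n - 1)) z := by
    unfold ff
    simpa using (hasDerivAt_pow n z).add_const c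
  exact h.deriv

theorem ITR (hNUL : NUL_stmt) : ITR_stmt := by
  intro n c μ hn h t
  induction t with
  | zero =>
    refine Filter.Eventually.of_forall fun z => ?_
    have h1 : deriv ((ff n c)^[0]) z = 1 := by
      rw [Function.iterate_zero]
      exact deriv_id z
    rw [h1]
    simp
  | succ t ih =>
    have h0 : ∀ᵐ z : ℂ, z ≠ 0 := by
      rw [ae_iff]
      simp
    have hN := hNUL (ff n c) {z | z ≠ 0} {w | ¬ (μ ((ff n c)^[t] w) *
      (starRingEnd ℂ) (deriv ((ff n c)^[t]) w) / deriv ((ff n c)^[t]) w = μ w)}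
      isOpen_ne (ITR_diff n c).differentiableOn (by
        intro z hz
        rw [ITR_deriv]
        exact mul_ne_zero (by exact_mod_cast (by omega : n ≠ 0)) (pow_ne_zero _ hz)) ih
    have hN' : ∀ᵐ z : ℂ, ¬ (z ∈ {z : ℂ | z ≠ 0} ∧ ff n c z ∈ {w | ¬ (μ ((ff n c)^[t] w) *
      (starRingEnd ℂ) (deriv ((ff n c)^[t]) w) / deriv ((ff n c)^[t]) w = μ w)}) := by
      rw [ae_iff]
      simpa using hN
    filter_upwards [h0, hN', h] with z hz h1 h2
    have h3 : μ ((ff n c)^[t] (ff n c z)) * (starRingEnd ℂ) (deriv ((ff n c)^[t]) (ff n c z)) /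
        deriv ((ff n c)^[t]) (ff n c z) = μ (ff n c z) := by
      by_contra h4
      exact h1 ⟨hz, h4⟩
    have h5 : deriv ((ff n c)^[t + 1]) z = deriv ((ff n c)^[t]) (ff n c z) * deriv (ff n c) z := by
      have h6 : HasDerivAt ((ff n c)^[t]) (deriv ((ff n c)^[t]) (ff n c z)) (ff n c z) :=
        ((ITR_diff n c).iterate t _).hasDerivAt
      have h7 : HasDerivAt (ff n c) (deriv (ff n c) z) z := (ITR_diff n c z).hasDerivAt
      have h8 := h6.comp z h7
      rw [← Function.iterate_succ] at h8
      exact h8.deriv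
    rw [h5, Function.iterate_succ_apply, map_mul]
    calc μ ((ff n c)^[t] (ff n c z)) * ((starRingEnd ℂ) (deriv ((ff n c)^[t]) (ff n c z)) *
          (starRingEnd ℂ) (deriv (ff n c) z)) /
          (deriv ((ff n c)^[t]) (ff n c z) * deriv (ff n c) z)
        = (μ ((ff n c)^[t] (ff n c z)) * (starRingEnd ℂ) (deriv ((ff n c)^[t]) (ff n c z)) /
          deriv ((ff n c)^[t]) (ff n c z)) * (starRingEnd ℂ) (deriv (ff n c) z) /
            deriv (ff n c) z := by ring
      _ = μ z := by rw [h3, h2]

end EX
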